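import Mathlib
import Pool.Agent.H29.AvgSh

namespace Pool.Agent.Results.MP_bdee7b_an.FactorASP
open Filter Topology Finset Pool.Agent.H29.AvgSh

/-- `δ`-average-pseudo-orbit. -/
def IsAPO {X : Type} [MetricSpace X] (f : X → X) (δ : ℝ) (x : ℕ → X) : Prop :=
  ∃ N : ℕ, ∀ n ≥ N, ∀ k : ℕ,
    (1 / (n : ℝ)) * ∑ i ∈ range n, dist (f (x (i + k))) (x (i + k + 1)) < δ

/-- `x` is `ε`-shadowed in average by `z`. -/
def Shadowed {X : Type} [MetricSpace X] (f : X → X) (ε : ℝ) (x : ℕ → X) (z : X) : Prop :=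
  limsup (fun n : ℕ => (1 / (n : ℝ)) * ∑ i ∈ range n, dist (f^[i] z) (x i)) atTop < ε

/-- The average shadowing property. -/
def ASP {X : Type} [MetricSpace X] (f : X → X) : Prop :=
  ∀ ε : ℝ, 0 < ε → ∃ δ : ℝ, 0 < δ ∧ ∀ x : ℕ → X, IsAPO f δ x → ∃ z : X, Shadowed f ε x z

lemma avg_le {X : Type} [MetricSpace X] (D : ℝ) (hD0 : 0 < D) (hD : ∀ a b : X, dist a b ≤ D)
    (u v : ℕ → X) (n : ℕ) : (1 / (n : ℝ)) * ∑ i ∈ range n, dist (u i) (v i) ≤ D := by
  rcases Nat.eq_zero_or_pos n with rfl | hn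
  · simp [hD0.le]
  have hn' : (0 : ℝ) < n := by exact_mod_cast hn
  have h : ∑ i ∈ range n, dist (u i) (v i) ≤ ∑ i ∈ range n, D := sum_le_sum fun i _ => hD _ _
  rw [sum_const, card_range, nsmul_eq_mul] at h
  rw [one_div, inv_mul_le_iff₀ hn']
  exact h

theorem result (X Y : Type) [MetricSpace X] [CompactSpace X] [MetricSpace Y] [CompactSpace Y]
    (f : X → X) (g : Y → Y) (p : X → Y) (_hf : Continuous f) (hg : Continuous g)
    (hp : Continuous p) (hs : Function.Surjective p) (hc : p ∘ f = g ∘ p) (h : ASP f) :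
    ASP g := by
  classical
  have hc' : ∀ a, p (f a) = g (p a) := fun a => congrFun hc a
  intro ε hε
  obtain ⟨D, hD0, hD⟩ := diam_bound X
  obtain ⟨A, hA0, hA⟩ := lin_bound p hp (ε / 8) (by positivity)
  obtain ⟨δ', hδ', hsh⟩ := h (ε / 8 / (A + 1)) (by positivity)
  obtain ⟨L0, hL0⟩ := exists_nat_gt (2 * D / δ')
  have hL0' : (0 : ℝ) < L0 := lt_trans (by positivity) hL0
  have hLpos : 0 < L0 := by exact_mod_cast hL0'
  obtain ⟨C, hC0, hC⟩ := block g hg L0 (ε / 8) (by positivity)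
  refine ⟨ε / 8 / (C * L0 + 1), by positivity, fun y hy => ?_⟩
  obtain ⟨N, hN⟩ := hy
  obtain ⟨x, hx1, hx2⟩ := lift f g p hs hc' y (fun i => L0 ∣ i)
  have hapo : IsAPO f δ' x := by
    refine ⟨L0, fun n hn k => ?_⟩
    have hn' : (L0 : ℝ) ≤ n := by exact_mod_cast hn
    have hnpos : (0 : ℝ) < n := lt_of_lt_of_le hL0' hn'
    have h1 : ∑ i ∈ range n, dist (f (x (i + k))) (x (i + k + 1)) ≤
        ∑ i ∈ range n, D * (if L0 ∣ i + k + 1 then (1 : ℝ) else 0) := by
      refine sum_le_sum fun i _ => ?_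
      split_ifs with hd
      · simpa using hD _ _
      · rw [hx1 _ hd]; simp
    rw [← mul_sum] at h1
    have h2 := mul_le_mul_of_nonneg_left (count L0 hLpos k n) hD0.le
    have h3 : (1 : ℝ) ≤ n / L0 := by rw [le_div_iff₀ hL0']; linarith
    have h4 : 2 * D / L0 < δ' := by
      rw [div_lt_iff₀ hL0']; rw [div_lt_iff₀ hδ'] at hL0; linarith
    have h5 : D * ((n : ℝ) / L0 + 1) ≤ n * (2 * D / L0) := by
      have : (n : ℝ) * (2 * D / L0) = D * (n / L0 + n / L0) := by ring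
      rw [this]; gcongr
    rw [one_div, inv_mul_lt_iff₀ hnpos]
    have h6 := mul_lt_mul_of_pos_left h4 hnpos
    linarith
  obtain ⟨z, hz⟩ := hsh x hapo
  refine ⟨p z, ?_⟩
  have hbd : IsBoundedUnder (· ≤ ·) atTop
      (fun n : ℕ => (1 / (n : ℝ)) * ∑ i ∈ range n, dist (f^[i] z) (x i)) :=
    isBoundedUnder_of ⟨D, fun n => avg_le D hD0 hD _ _ n⟩
  have hev := eventually_lt_of_limsup_lt hz hbd
  have hcob : IsCoboundedUnder (· ≤ ·) atTop
      (fun n : ℕ => (1 / (n : ℝ)) * ∑ i ∈ range n, dist (g^[i] (p z)) (y i)) :=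
    isCoboundedUnder_le_of_le atTop (x := 0) fun n => by positivity
  refine lt_of_le_of_lt (limsup_le_of_le hcob (a := ε / 2) ?_) (by linarith)
  filter_upwards [hev, eventually_ge_atTop N, eventually_gt_atTop 0] with n h1 h2 h3
  have hnpos : (0 : ℝ) < n := by exact_mod_cast h3
  have h4 := final f g p hc' (ε / 8) A hA x y z n h3
  have h5 : A * ((1 / (n : ℝ)) * ∑ i ∈ range n, dist (f^[i] z) (x i)) ≤ ε / 8 := by
    have := mul_le_mul_of_nonneg_left h1.le hA0
    refine this.trans ?_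
    rw [← mul_div_assoc, div_le_iff₀ (by positivity)]; nlinarith
  have h6 : ∑ i ∈ range n, dist (p (x i)) (y i) ≤
      ∑ i ∈ range n, (ε / 8 + C * (∑ t ∈ range i, dist (g (y t)) (y (t + 1)) -
      ∑ t ∈ range (i - L0), dist (g (y t)) (y (t + 1)))) := by
    refine sum_le_sum fun i _ => ?_
    obtain ⟨s, hs1, hs2, hs3⟩ := hx2 i
    rw [hs3]
    refine approx g y _ C hC0 L0 (hC y) i s hs1 ?_
    have h7 := hs2 (L0 * (i / L0)) (Nat.mul_div_le i L0) (dvd_mul_right _ _)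
    have h8 := Nat.div_add_mod i L0
    have h9 := Nat.mod_lt i hLpos
    omega
  rw [sum_add_distrib, sum_const, card_range, nsmul_eq_mul, ← mul_sum] at h6
  have h7 := mul_le_mul_of_nonneg_left
    (window (fun t => dist (g (y t)) (y (t + 1))) (fun _ => dist_nonneg) L0 n) hC0
  have h8 := hN n h2 0
  simp only [add_zero] at h8
  rw [one_div, inv_mul_lt_iff₀ hnpos] at h8
  have h9 : C * (L0 * ∑ s ∈ range n, dist (g (y s)) (y (s + 1))) ≤ n * (ε / 8) := by
    have h10 : 0 ≤ C * L0 := by positivity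
    have h11 := mul_le_mul_of_nonneg_left h8.le h10
    have h12 : C * L0 * (n * (ε / 8 / (C * L0 + 1))) ≤ n * (ε / 8) := by
      have : C * L0 * (ε / 8 / (C * L0 + 1)) ≤ ε / 8 := by
        rw [← mul_div_assoc, div_le_iff₀ (by positivity)]; nlinarith
      nlinarith
    nlinarith
  have h10 : (1 / (n : ℝ)) * ∑ i ∈ range n, dist (p (x i)) (y i) ≤ ε / 4 := by
    rw [one_div, inv_mul_le_iff₀ hnpos]
    linarith
  linarith

end Pool.Agent.Results.MP_bdee7b_an.FactorASP
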